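import Mathlib

/-!
# Project HB (MP_f31a67_ag): discrete valuations with values in `ℤ`

`DV k L`: a valuation `v` on the field `L`, trivial on `k`, with integer values on nonzero elements
(`v 0 = 0` is a junk value).  `D.ge n x` means `x = 0` or `n ≤ v x`.
-/

namespace HB

/-- A `ℤ`-valued valuation of `L`, trivial on `k`. -/
structure DV (k L : Type*) [Field k] [Field L] [Algebra k L] where
  v : L → ℤ
  zero : v 0 = 0
  mul : ∀ {x y : L}, x ≠ 0 → y ≠ 0 → v (x * y) = v x + v y
  add : ∀ {x y : L}, x ≠ 0 → y ≠ 0 → x + y ≠ 0 → min (v x) (v y) ≤ v (x + y)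
  const : ∀ c : k, v (algebraMap k L c) = 0

namespace DV

variable {k L : Type*} [Field k] [Field L] [Algebra k L] (D : DV k L)

/-- `v x ≥ n`, including `x = 0`. -/
def ge (n : ℤ) (x : L) : Prop := x = 0 ∨ n ≤ D.v x

theorem one : D.v 1 = 0 := by
  have h := D.const (1 : k)
  rwa [map_one] at h

theorem neg (x : L) : D.v (-x) = D.v x := by
  by_cases hx : x = 0
  · subst hx; simp
  · have h1 : D.v (-1 : L) = 0 := by
      have := D.const (-1 : k)
      rwa [map_neg, map_one] at this
    have h2 : (-x : L) = (-1) * x := by ring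
    rw [h2, D.mul (by simp) hx, h1, zero_add]

theorem inv {x : L} (hx : x ≠ 0) : D.v x⁻¹ = - D.v x := by
  have h := D.mul hx (inv_ne_zero hx)
  rw [mul_inv_cancel₀ hx, D.one] at h
  linarith

theorem div {x y : L} (hx : x ≠ 0) (hy : y ≠ 0) : D.v (x / y) = D.v x - D.v y := by
  rw [div_eq_mul_inv, D.mul hx (inv_ne_zero hy), D.inv hy]; ring

theorem pow {x : L} (hx : x ≠ 0) (n : ℕ) : D.v (x ^ n) = n * D.v x := by
  induction n with
  | zero => simpa using D.one
  | succ n ih => rw [pow_succ, D.mul (pow_ne_zero n hx) hx, ih]; push_cast; ring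

theorem natCast [CharZero k] {n : ℕ} : D.v ((n : ℕ) : L) = 0 := by
  have h := D.const (n : k)
  rwa [map_natCast] at h

theorem ofNat [CharZero k] {n : ℕ} [n.AtLeastTwo] : D.v (OfNat.ofNat n : L) = 0 := by
  have h := D.const (OfNat.ofNat n : k)
  rwa [map_ofNat] at h

theorem ge_zero_elt (n : ℤ) : D.ge n 0 := Or.inl rfl

theorem ge_mono {m n : ℤ} (h : m ≤ n) {x : L} (hx : D.ge n x) : D.ge m x :=
  hx.imp id (le_trans h)

theorem ge_add {n : ℤ} {x y : L} (hx : D.ge n x) (hy : D.ge n y) : D.ge n (x + y) := by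
  by_cases h0 : x = 0
  · subst h0; simpa using hy
  by_cases h1 : y = 0
  · subst h1; simpa using hx
  by_cases h2 : x + y = 0
  · exact Or.inl h2
  · refine Or.inr (le_trans ?_ (D.add h0 h1 h2))
    exact le_min (hx.resolve_left h0) (hy.resolve_left h1)

theorem ge_neg {n : ℤ} {x : L} (hx : D.ge n x) : D.ge n (-x) := by
  rcases hx with h | h
  · left; simp [h]
  · right; rwa [D.neg]

theorem ge_sub {n : ℤ} {x y : L} (hx : D.ge n x) (hy : D.ge n y) : D.ge n (x - y) := by
  rw [sub_eq_add_neg]; exact D.ge_add hx (D.ge_neg hy)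

theorem ge_mul {m n : ℤ} {x y : L} (hx : D.ge m x) (hy : D.ge n y) : D.ge (m + n) (x * y) := by
  by_cases h0 : x = 0
  · left; simp [h0]
  by_cases h1 : y = 0
  · left; simp [h1]
  right
  rw [D.mul h0 h1]
  exact add_le_add (hx.resolve_left h0) (hy.resolve_left h1)

theorem ge_const (c : k) : D.ge 0 (algebraMap k L c) := Or.inr (D.const c).ge

theorem ge_one : D.ge 0 (1 : L) := Or.inr D.one.ge

theorem ge_of_le {n : ℤ} {x : L} (h : n ≤ D.v x) : D.ge n x := Or.inr h

theorem le_of_ge {n : ℤ} {x : L} (hx : x ≠ 0) (h : D.ge n x) : n ≤ D.v x := h.resolve_left hx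

theorem ge_pow {x : L} (hx : D.ge 0 x) (n : ℕ) : D.ge 0 (x ^ n) := by
  induction n with
  | zero => simpa using D.ge_one
  | succ n ih => rw [pow_succ]; simpa using D.ge_mul ih hx

/-- The strong triangle (in)equality: `v (x + y) = v x` if `v x < v y`. -/
theorem add_eq_left {x y : L} (hx : x ≠ 0) (hy : D.ge (D.v x + 1) y) :
    x + y ≠ 0 ∧ D.v (x + y) = D.v x := by
  rcases hy with h | h
  · subst h; simpa using hx
  by_cases hy0 : y = 0
  · subst hy0; simpa using hx
  have hne : x + y ≠ 0 := by
    intro h0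
    have : y = -x := by linear_combination h0
    rw [this, D.neg] at h
    omega
  refine ⟨hne, le_antisymm ?_ ?_⟩
  · by_contra hlt
    rw [not_le] at hlt
    have h1 : x = (x + y) + (-y) := by ring
    have h2 := D.add hne (neg_ne_zero.mpr hy0) (by rw [← h1]; exact hx)
    rw [← h1, D.neg] at h2
    rcases min_le_iff.mp h2 with h3 | h3 <;> omega
  · have h2 := D.add hx hy0 hne
    have : min (D.v x) (D.v y) = D.v x := min_eq_left (by omega)
    rwa [this] at h2

open Classical in
/-- The minimum of the orders of `a` and `b`, where `v 0 = ∞` (used when `a`, `b` are not both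
zero; `dmin 0 0 = 0`). -/
noncomputable def dmin (a b : L) : ℤ :=
  if a = 0 then D.v b else if b = 0 then D.v a else min (D.v a) (D.v b)

theorem le_dmin {a b : L} (h : a ≠ 0 ∨ b ≠ 0) (n : ℤ) :
    n ≤ D.dmin a b ↔ D.ge n a ∧ D.ge n b := by
  unfold dmin ge
  by_cases ha : a = 0
  · have hb : b ≠ 0 := h.resolve_left (fun h' => h' ha)
    simp [ha, hb]
  · by_cases hb : b = 0
    · simp [ha, hb]
    · simp [ha, hb]

theorem dmin_comm (a b : L) : D.dmin a b = D.dmin b a := by
  unfold dmin
  by_cases ha : a = 0 <;> by_cases hb : b = 0 <;> simp [ha, hb, min_comm]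

theorem dmin_neg_left (a b : L) : D.dmin (-a) b = D.dmin a b := by
  unfold dmin
  by_cases ha : a = 0 <;> by_cases hb : b = 0 <;> simp [ha, hb, D.neg]

theorem dmin_neg_right (a b : L) : D.dmin a (-b) = D.dmin a b := by
  rw [dmin_comm, dmin_neg_left, dmin_comm]

theorem dmin_zero_left (b : L) : D.dmin 0 b = D.v b := by simp [dmin]

theorem dmin_zero_right (a : L) : D.dmin a 0 = D.v a := by
  unfold dmin
  by_cases ha : a = 0 <;> simp [ha]

/-- The restriction of a valuation to a subfield. -/
def comap {k K L : Type*} [Field k] [Field K] [Field L] [Algebra k K] [Algebra k L] [Algebra K L]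
    [IsScalarTower k K L] (D : DV k L) : DV k K where
  v x := D.v (algebraMap K L x)
  zero := by rw [map_zero, D.zero]
  mul := fun {x y} hx hy => by
    rw [map_mul]
    exact D.mul ((map_ne_zero _).mpr hx) ((map_ne_zero _).mpr hy)
  add := fun {x y} hx hy hxy => by
    rw [map_add]
    exact D.add ((map_ne_zero _).mpr hx) ((map_ne_zero _).mpr hy)
      (by rw [← map_add]; exact (map_ne_zero _).mpr hxy)
  const c := by rw [← IsScalarTower.algebraMap_apply k K L, D.const]

/-- The valuation ring. -/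
def ring : ValuationSubring L where
  carrier := {x | D.ge 0 x}
  mul_mem' := fun {a b} ha hb => by simpa using D.ge_mul ha hb
  one_mem' := D.ge_one
  add_mem' := fun {a b} ha hb => D.ge_add ha hb
  zero_mem' := D.ge_zero_elt 0
  neg_mem' := fun {a} ha => D.ge_neg ha
  mem_or_inv_mem' := fun x => by
    by_cases hx : x = 0
    · left; exact Or.inl hx
    rcases le_total 0 (D.v x) with h | h
    · left; exact Or.inr h
    · right; refine Or.inr ?_
      rw [D.inv hx]; omega

theorem mem_ring {x : L} : x ∈ D.ring ↔ D.ge 0 x := Iff.rfl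

end DV

end HB
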