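import Pool.Agent.HB.Surf

/-!
# Project HB: Higgs bundles on smooth projective surfaces, slope stability, pull-backs, Chern
classes and the final statement (negated form of Q1 of MP_f31a67_ag)

Conventions: a vector bundle of rank `r` on the surface `S` is given together with a
trivialisation of its generic fibre, i.e. by its stalks `E P` at the closed points, which are
lattices in `L ^ r`, and which are locally (in the Zariski topology) generated by a fixed basis
of `L ^ r`.
-/

set_option autoImplicit false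

open scoped Matrix

namespace HB

universe u

variable {k L : Type u} [Field k] [Field L] [Algebra k L]

/-- The `R`-lattice in `L ^ r` spanned by the columns of the matrix `g`. -/
def latt {r : ℕ} (R : Subring L) (g : Matrix (Fin r) (Fin r) L) : Set (Fin r → L) :=
  {x | ∃ c : Fin r → L, (∀ j, c j ∈ R) ∧ x = g *ᵥ c}

/-- A vector bundle of rank `r` with generic fibre `L ^ r`: a lattice at every closed point,
Zariski locally free.  (The affine open subset `D(h)` of the chart `l ≠ 0`, where `h` is a regular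
function on the chart, consists of the points `Q` such that `S.chart l` and `1/h` are contained
in the local ring at `Q`.) -/
structure VB (S : Surf k L) (r : ℕ) where
  /-- the stalk at a closed point -/
  E : S.Pt → Set (Fin r → L)
  locFree : ∀ P : S.Pt, ∃ (l h : L) (g : Matrix (Fin r) (Fin r) L),
    l ∈ S.V ∧ l ≠ 0 ∧ h ∈ S.chart l ∧ h ≠ 0 ∧ g.det ≠ 0 ∧
    S.chart l ≤ P.1.toSubring ∧ h⁻¹ ∈ P.1.toSubring ∧
    ∀ Q : S.Pt, S.chart l ≤ Q.1.toSubring → h⁻¹ ∈ Q.1.toSubring → E Q = latt Q.1.toSubring g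

/-! ### Higgs fields -/

/-- The value of a matrix of differentials on a vector. -/
noncomputable def appl {r : ℕ} (θ : Matrix (Fin r) (Fin r) (Ω[L⁄k])) (x : Fin r → L) :
    Fin r → Ω[L⁄k] := fun i => ∑ j, x j • θ i j

/-- `E ⊗ Ω` at a point with stalk `E` and local ring `R`: the additive subgroup of `Ω ^ r`
generated by the elements `e ⊗ da`, `e ∈ E`, `a ∈ R`. -/
noncomputable def twist (k : Type u) {L : Type u} [Field k] [Field L] [Algebra k L] {r : ℕ}
    (E : Set (Fin r → L)) (R : Subring L) : AddSubgroup (Fin r → Ω[L⁄k]) :=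
  AddSubgroup.closure {y | ∃ e ∈ E, ∃ a ∈ R, y = fun i => e i • KaehlerDifferential.D k L a}

/-- `θ` is a Higgs field on the vector bundle with stalks `E`: a regular homomorphism
`E → E ⊗ Ω` with `θ ∧ θ = 0`. -/
structure IsHiggs {S : Surf k L} {r : ℕ} (E : S.Pt → Set (Fin r → L))
    (θ : Matrix (Fin r) (Fin r) (Ω[L⁄k])) : Prop where
  map : ∀ P : S.Pt, ∀ x ∈ E P, appl θ x ∈ twist k (E P) P.1.toSubring
  /-- `θ ∧ θ = 0` in `End(L ^ r) ⊗ Λ² Ω` -/
  wedge : ∀ i j, ∑ m, ExteriorAlgebra.ι L (θ i m) * ExteriorAlgebra.ι L (θ m j) = 0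

/-! ### Slopes of saturated subsheaves and stability -/

/-- The lattice at the prime divisor `C` (the stalk at the generic point of the curve `C`),
generated by the stalks at the closed points of `C`. -/
def atDiv {S : Surf k L} {r : ℕ} (E : S.Pt → Set (Fin r → L)) (C : S.PD) :
    AddSubgroup (Fin r → L) :=
  AddSubgroup.closure {x | ∃ P : S.Pt, Surf.On P C ∧ ∃ e ∈ E P, ∃ c ∈ C.1.toSubring, x = c • e}

/-- Let `W` be the subspace of `L ^ r` with basis `w`.  The divisor `D` represents the first Chern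
class of the saturated subsheaf `W ∩ E`: for every prime divisor `C` the lattice `W ∩ E_C` is
`M (O_C ^ m)` in the coordinates given by `w`, with `ord_C (det M) = - D(C)`. -/
def IsC1 {S : Surf k L} {r m : ℕ} (E : S.Pt → Set (Fin r → L)) (w : Fin m → (Fin r → L))
    (D : S.Div) : Prop :=
  ∀ C : S.PD, ∃ M : Matrix (Fin m) (Fin m) L, M.det ≠ 0 ∧ D C = - C.ord M.det ∧
    ∀ c : Fin m → L, ∑ j, c j • w j ∈ atDiv E C ↔ c ∈ latt C.1.toSubring M

/-- Slope stability, with respect to the polarisation `H` of the surface, of the Higgs bundle of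
rank `r` with stalks `E` and Higgs field `θ`: for every `θ`-invariant subspace `W` of the generic
fibre, with basis `w` and dimension `0 < m < r`, one has
`(c₁(W ∩ E) . H) / m < (c₁(E) . H) / r`. -/
def Stable (S : Surf k L) {r : ℕ} (E : S.Pt → Set (Fin r → L))
    (θ : Matrix (Fin r) (Fin r) (Ω[L⁄k])) : Prop :=
  ∀ (m : ℕ) (w : Fin m → (Fin r → L)), 0 < m → m < r → LinearIndependent L w →
    (∀ x ∈ Submodule.span L (Set.range w), ∀ φ : Ω[L⁄k] →ₗ[L] L,
      (fun i => φ (appl θ x i)) ∈ Submodule.span L (Set.range w)) →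
    ∃ D D' : S.Div, IsC1 E w D ∧ IsC1 E (fun i : Fin r => (Pi.single i 1 : Fin r → L)) D' ∧
      S.degH D / m < S.degH D' / r

/-! ### Morphisms and pull-backs -/

section Pull

variable {K : Type u} [Field K] [Algebra k K] [Algebra K L] [IsScalarTower k K L]

/-- The closed point `Q` is mapped to the closed point `P`: the local ring at `Q` dominates the
local ring at `P`. -/
def Dom {X : Surf k K} {Y : Surf k L} (Q : Y.Pt) (P : X.Pt) : Prop :=
  P.1.map (algebraMap K L) ≤ Q.1

/-- The inclusion of function fields `K ⊆ L` comes from a (dominant) morphism `Y → X`. -/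
def IsMor (Y : Surf k L) (X : Surf k K) : Prop := ∀ Q : Y.Pt, ∃ P : X.Pt, Dom Q P

/-- The stalks of the pull-back of a vector bundle. -/
def pull {X : Surf k K} (Y : Surf k L) {r : ℕ} (E : X.Pt → Set (Fin r → K)) (Q : Y.Pt) :
    Set (Fin r → L) :=
  {x | x ∈ AddSubgroup.closure {x : Fin r → L | ∃ P : X.Pt, Dom Q P ∧ ∃ e ∈ E P,
    ∃ c ∈ Q.1.toSubring, x = fun i => c * algebraMap K L (e i)}}

/-- The pull-back of a matrix of differentials. -/
noncomputable def pullΘ (L : Type u) [Field L] [Algebra k L] [Algebra K L] [IsScalarTower k K L]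
    {r : ℕ} (θ : Matrix (Fin r) (Fin r) (Ω[K⁄k])) : Matrix (Fin r) (Fin r) (Ω[L⁄k]) :=
  θ.map (KaehlerDifferential.map k k K L)

end Pull

/-! ### Chern classes (Whitney's formula for a full flag of subbundles) -/

/-- The flag of subspaces spanned by the first columns of the matrix `f` induces a full flag of
subbundles of `E`, whose successive quotients are the line bundles `O(D i)`: every stalk has a
basis of the form `f * T` with `T` upper triangular and `T i i` a local equation of `- D i`. -/
def IsFlag {S : Surf k L} {r : ℕ} (E : S.Pt → Set (Fin r → L)) (f : Matrix (Fin r) (Fin r) L)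
    (D : Fin r → S.Div) : Prop :=
  f.det ≠ 0 ∧ ∀ P : S.Pt, ∃ T : Matrix (Fin r) (Fin r) L,
    E P = latt P.1.toSubring (f * T) ∧ (∀ i j, j < i → T i j = 0) ∧
    ∀ i, S.IsEq (- D i) P (T i i)

/-- The divisor `c₁` and the class `c₂` of zero-cycles are the Chern classes of the vector bundle
with stalks `E`, computed by Whitney's formula from a full flag of subbundles. -/
def IsChern {S : Surf k L} {r : ℕ} (E : S.Pt → Set (Fin r → L)) (c₁ : S.Div) (c₂ : S.CH0) :
    Prop :=
  ∃ (f : Matrix (Fin r) (Fin r) L) (D : Fin r → S.Div), IsFlag E f D ∧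
    c₁ = ∑ i, D i ∧ c₂ = ∑ i, ∑ j, if i < j then S.prod (D i) (D j) else 0

/-! ### The final statement -/

/-- **Negated form of Q1 of MP_f31a67_ag.**  There is a smooth projective surface `X` over `ℂ`,
with a polarisation `H`, and a Higgs bundle `(E, θ)` of rank `r` on `X` such that

* `(E, θ)` is slope stable with respect to `H`, and for every smooth projective surface `Y` with
  a generically finite morphism `Y → X` the pull-back of `(E, θ)` to `Y` is slope stable, with
  respect to every polarisation of `Y`;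
* `∫ Δ(E) = 0`, where `Δ(E) = 2 r c₂(E) - (r - 1) c₁(E)²`;
* `r² c₂(E) ≠ (r choose 2) c₁(E)²` in `CH²(X)_ℚ`. -/
def Q1False : Prop :=
  ∃ (K : Type) (_ : Field K) (_ : Algebra ℂ K) (X : Surf ℂ K) (r : ℕ) (E : VB X r)
    (θ : Matrix (Fin r) (Fin r) (Ω[K⁄ℂ])) (c₁ : X.Div) (c₂ : X.CH0),
    X.Smooth ∧ IsHiggs E.E θ ∧ Stable X E.E θ ∧
    (∀ (L : Type) [Field L] [Algebra ℂ L] [Algebra K L] [IsScalarTower ℂ K L] (Y : Surf ℂ L),
      Y.Smooth → IsMor Y X → Stable Y (pull Y E.E) (pullΘ L θ)) ∧
    IsChern E.E c₁ c₂ ∧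
    X.deg ((2 * r : ℚ) • c₂ - (r - 1 : ℚ) • X.prod c₁ c₁) = 0 ∧
    (r ^ 2 : ℚ) • c₂ ≠ (r.choose 2 : ℚ) • X.prod c₁ c₁

end HB
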