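import Pool.Agent.HB.Bun

/-!
# Project HB: the interface between the construction of the surface `X` (part C) and the rest

`B : y² = x⁶ + 1` (genus 2), `α (x,y) = (ζ x, - y)` (order 6, no fixed points),
`E : Y² = X³ + 1`, `π (x,y) = (x², y)`, `π' (x,y) = (1/x², y/x³)`.
Marks: `0, 1, 2` with `y_2 = α y_0`; collisions only between `0,1` and between `2,1`.
(helper5's `Geo.lean`, adapted to the names of `HB/Surf.lean`.)
-/

set_option autoImplicit false

namespace HB

variable {k L : Type} [Field k] [Field L] [Algebra k L]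

open Classical in
/-- The order at the (discrete valuation) ring `R`, with value `⊤` at `0`. -/
noncomputable def ordT (R : Subring L) (x : L) : WithTop ℤ :=
  if x = 0 then ⊤ else (ordS R x : ℤ)

open Classical in
/-- Intersection multiplicity at `R` of two points of `B : y² = x⁶ + 1` with coordinates in `L`. -/
noncomputable def iB (R : Subring L) (p q : L × L) : WithTop ℤ :=
  if p.1 ∈ R ∧ q.1 ∈ R then min (ordT R (p.1 - q.1)) (ordT R (p.2 - q.2))
  else if p.1 ∉ R ∧ q.1 ∉ R then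
    min (ordT R (1 / p.1 - 1 / q.1)) (ordT R (p.2 / p.1 ^ 3 - q.2 / q.1 ^ 3))
  else 0

/-- The elliptic curve `Y² = X³ + 1`. -/
def EC (L : Type) [Field L] : WeierstrassCurve.Affine L := ⟨0, 0, 0, 0, 1⟩

/-- The points of the elliptic curve `Y² = X³ + 1`. -/
abbrev EPt (L : Type) [Field L] : Type := (EC L).Point

noncomputable instance instAddCommGroupEPt : AddCommGroup (EPt L) := by
  classical
  exact inferInstanceAs (AddCommGroup (EC L).Point)

/-- Everything the construction of the surface has to provide. -/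
structure Geo (X : Surf k L) where
  /-- primitive cube root of unity -/
  ζ : k
  hζ : ζ ^ 2 + ζ + 1 = 0
  /-- the marks `y_a = (x a, y a) ∈ B(L)` -/
  x : Fin 3 → L
  y : Fin 3 → L
  curve : ∀ a, y a ^ 2 = x a ^ 6 + 1
  x2 : x 2 = algebraMap k L ζ * x 0
  y2 : y 2 = - y 0
  hs : X.s = x 0 + x 1
  ht : X.t = x 0 * x 1
  /-- the points `s_a`, `s'_a` of `E(L)` -/
  s : Fin 3 → EPt L
  s' : Fin 3 → EPt L
  s_eq : ∀ a, ∃ h : (EC L).Nonsingular (x a ^ 2) (y a),
    (3 : ℤ) • s a = WeierstrassCurve.Affine.Point.some _ _ h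
  s'_eq : ∀ a, ∃ h : (EC L).Nonsingular ((x a ^ 2)⁻¹) (y a / x a ^ 3),
    (3 : ℤ) • s' a = WeierstrassCurve.Affine.Point.some _ _ h
  /-- `s_a`, `s'_a` are morphisms `X → E` -/
  s_mor : ∀ a (P : X.Pt), ∀ u v : L, ∀ h : (EC L).Nonsingular u v,
    (s a = WeierstrassCurve.Affine.Point.some _ _ h ∨
      s' a = WeierstrassCurve.Affine.Point.some _ _ h) →
    u ∈ P.1.toSubring ∨ u⁻¹ ∈ P.1.toSubring
  /-- the collision divisors are divisible by 3 -/
  three01 : ∀ C : X.PD, ∃ n : ℤ,
    iB C.1.toSubring (x 0, y 0) (x 1, y 1) = ((3 * n : ℤ) : WithTop ℤ)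
  three21 : ∀ C : X.PD, ∃ n : ℤ,
    iB C.1.toSubring (x 2, y 2) (x 1, y 1) = ((3 * n : ℤ) : WithTop ℤ)

end HB
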