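import Pool.Agent.HB.Geo
import Pool.Agent.HB.DV

/-!
# Project HB: points of the curves `B : y² = x⁶ + 1` and `E : Y² = X³ + 1` over a field `F`,
and their intersection multiplicities at a `ℤ`-valued valuation `D : DV k F` (trivial on `k`).

* `EPt F`: points of `E` (Mathlib), coordinates `eX, eY`, local parameters at the origin
  `eT = X / Y`, `eW = 1 / Y`.  `D.iE P` = intersection multiplicity of `P ≠ 0` with the origin.
* `BPt F`: points of `B`: affine points `aff x y` and the two points at infinity `inf 1`,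
  `inf (-1)`; second chart `xh = 1 / x`, `yh = y / x³`.
  `D.iB p q` = intersection multiplicity of `p ≠ q`.
* `BPt.pi, BPt.pi' : BPt F → EPt F`, `(x,y) ↦ (x²,y)`, `(x,y) ↦ (1/x², y/x³)`.
* `D.iInf p = i(p, ∞)`, `D.iZero p = i(p, {x = 0})`.
-/

set_option autoImplicit false

namespace HB

variable {k F : Type} [Field k] [Field F] [Algebra k F]

/-! ### Points of `E` -/

/-- The `X`-coordinate (junk value `0` at the origin). -/
def eX : EPt F → F
  | .zero => 0
  | .some x _ _ => x

/-- The `Y`-coordinate (junk value `0` at the origin). -/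
def eY : EPt F → F
  | .zero => 0
  | .some _ y _ => y

/-- The local parameter `X / Y` at the origin. -/
noncomputable def eT (P : EPt F) : F := eX P / eY P

/-- The function `1 / Y`. -/
noncomputable def eW (P : EPt F) : F := (eY P)⁻¹

theorem nonsingE [CharZero F] {x y : F} (h : y ^ 2 = x ^ 3 + 1) : (EC F).Nonsingular x y := by
  rw [WeierstrassCurve.Affine.nonsingular_iff, WeierstrassCurve.Affine.equation_iff]
  simp only [EC]
  refine ⟨by linear_combination h, ?_⟩
  by_contra hc
  rw [not_or, not_not, not_not] at hc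
  have h1 : y = 0 := by
    have := hc.2
    have h2 : (2 : F) * y = 0 := by linear_combination this
    simpa using h2
  have h3 : x = 0 := by
    have := hc.1
    have h2 : (3 : F) * (x ^ 2) = 0 := by linear_combination -this
    simpa using h2
  rw [h1, h3] at h
  norm_num at h

/-- The point of `E` with coordinates `x, y`. -/
def mkE [CharZero F] (x y : F) (h : y ^ 2 = x ^ 3 + 1) : EPt F :=
  WeierstrassCurve.Affine.Point.some x y (nonsingE h)

@[simp] theorem eX_mkE [CharZero F] (x y : F) (h : y ^ 2 = x ^ 3 + 1) : eX (mkE x y h) = x := rfl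

@[simp] theorem eY_mkE [CharZero F] (x y : F) (h : y ^ 2 = x ^ 3 + 1) : eY (mkE x y h) = y := rfl

theorem mkE_ne_zero [CharZero F] (x y : F) (h : y ^ 2 = x ^ 3 + 1) : mkE x y h ≠ 0 :=
  WeierstrassCurve.Affine.Point.some_ne_zero _

@[simp] theorem eX_zero : eX (0 : EPt F) = 0 := rfl

@[simp] theorem eY_zero : eY (0 : EPt F) = 0 := rfl

theorem eY_sq {P : EPt F} (hP : P ≠ 0) : eY P ^ 2 = eX P ^ 3 + 1 := by
  match P, hP with
  | .zero, hP => exact absurd rfl hP
  | .some x y h, _ =>
    have h1 := h.1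
    rw [WeierstrassCurve.Affine.equation_iff] at h1
    simp only [EC] at h1
    simp only [eX, eY]
    linear_combination h1

theorem eq_mkE [CharZero F] {P : EPt F} (hP : P ≠ 0) : P = mkE (eX P) (eY P) (eY_sq hP) := by
  match P, hP with
  | .zero, hP => exact absurd rfl hP
  | .some x y h, _ => rfl

theorem ptE_ext {P Q : EPt F} (hP : P ≠ 0) (hQ : Q ≠ 0) (hX : eX P = eX Q) (hY : eY P = eY Q) :
    P = Q := by
  match P, Q, hP, hQ with
  | .zero, _, hP, _ => exact absurd rfl hP
  | _, .zero, _, hQ => exact absurd rfl hQ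
  | .some x y h, .some x' y' h', _, _ =>
    simp only [eX, eY] at hX hY
    subst hX; subst hY; rfl

theorem neg_ne_zeroE {P : EPt F} (hP : P ≠ 0) : -P ≠ 0 := neg_ne_zero.mpr hP

@[simp] theorem eX_neg (P : EPt F) : eX (-P) = eX P := by
  match P with
  | .zero => rfl
  | .some x y h => rfl

@[simp] theorem eY_neg (P : EPt F) : eY (-P) = -eY P := by
  match P with
  | .zero => simp [← WeierstrassCurve.Affine.Point.zero_def]
  | .some x y h =>
    change (EC F).negY x y = -y
    simp [WeierstrassCurve.Affine.negY, EC]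

theorem eX_eq_iff {P Q : EPt F} (hP : P ≠ 0) (hQ : Q ≠ 0) : eX P = eX Q ↔ P = Q ∨ P = -Q := by
  constructor
  · intro h
    have h1 : eY P ^ 2 = eY Q ^ 2 := by rw [eY_sq hP, eY_sq hQ, h]
    rcases sq_eq_sq_iff_eq_or_eq_neg.mp h1 with h2 | h2
    · exact Or.inl (ptE_ext hP hQ h h2)
    · exact Or.inr (ptE_ext hP (neg_ne_zeroE hQ) (by rw [eX_neg, h]) (by rw [eY_neg, h2]))
  · rintro (rfl | rfl)
    · rfl
    · exact eX_neg Q

theorem add_someE {x₁ y₁ x₂ y₂ : F} (h₁ : (EC F).Nonsingular x₁ y₁)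
    (h₂ : (EC F).Nonsingular x₂ y₂) (hxy : ¬(x₁ = x₂ ∧ y₁ = -y₂)) {s : F}
    (hs : (x₁ - x₂) * s = y₁ - y₂) (hs' : (y₁ + y₂) * s = x₁ ^ 2 + x₁ * x₂ + x₂ ^ 2) :
    ∃ h, (WeierstrassCurve.Affine.Point.some x₁ y₁ h₁ : EPt F) +
      (WeierstrassCurve.Affine.Point.some x₂ y₂ h₂ : EPt F) =
      WeierstrassCurve.Affine.Point.some (s ^ 2 - x₁ - x₂)
        (-(s * (s ^ 2 - x₁ - x₂ - x₁) + y₁)) h := by
  classical
  have hneg : (EC F).negY x₂ y₂ = -y₂ := by simp [WeierstrassCurve.Affine.negY, EC]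
  have hxy' : ¬(x₁ = x₂ ∧ y₁ = (EC F).negY x₂ y₂) := by rwa [hneg]
  have hsl : (EC F).slope x₁ x₂ y₁ y₂ = s := by
    by_cases hx : x₁ = x₂
    · have hy : y₁ ≠ -y₂ := fun h => hxy ⟨hx, h⟩
      have hy' : y₁ ≠ (EC F).negY x₂ y₂ := by rwa [hneg]
      rw [WeierstrassCurve.Affine.slope_of_Y_ne hx hy']
      have hyy : y₁ = y₂ := by
        rw [hx] at hs; simp at hs; linear_combination -hs
      subst hx
      subst hyy
      have h2 : (y₁ - (EC F).negY x₁ y₁) ≠ 0 := sub_ne_zero.mpr hy'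
      rw [div_eq_iff h2, hneg]
      simp only [EC]
      linear_combination -hs'
    · rw [WeierstrassCurve.Affine.slope_of_X_ne hx, div_eq_iff (sub_ne_zero.mpr hx)]
      linear_combination -hs
  have hadd := WeierstrassCurve.Affine.Point.add_some hxy' (h₁ := h₁) (h₂ := h₂)
  have e1 : (EC F).addX x₁ x₂ ((EC F).slope x₁ x₂ y₁ y₂) = s ^ 2 - x₁ - x₂ := by
    rw [hsl]; simp [WeierstrassCurve.Affine.addX, EC]
  have e2 : (EC F).addY x₁ x₂ y₁ ((EC F).slope x₁ x₂ y₁ y₂) =
      -(s * (s ^ 2 - x₁ - x₂ - x₁) + y₁) := by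
    rw [WeierstrassCurve.Affine.addY, WeierstrassCurve.Affine.negAddY, e1, hsl]
    simp [WeierstrassCurve.Affine.negY, EC]
  have hns := WeierstrassCurve.Affine.nonsingular_add h₁ h₂ hxy'
  rw [e1, e2] at hns
  refine ⟨hns, ?_⟩
  refine Eq.trans ?_ (Eq.trans hadd ?_)
  · rfl
  · congr 1

/-- Addition of points with different `X`-coordinates. -/
theorem addE {P Q : EPt F} (hP : P ≠ 0) (hQ : Q ≠ 0) (h : eX P ≠ eX Q) :
    P + Q ≠ 0 ∧ eX (P + Q) = ((eY P - eY Q) / (eX P - eX Q)) ^ 2 - eX P - eX Q ∧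
      eY (P + Q) = -((eY P - eY Q) / (eX P - eX Q) * (eX (P + Q) - eX P) + eY P) := by
  have hPs := eY_sq hP
  have hQs := eY_sq hQ
  match P, Q, hP, hQ with
  | .zero, _, hP, _ => exact absurd rfl hP
  | _, .zero, _, hQ => exact absurd rfl hQ
  | .some x₁ y₁ h₁, .some x₂ y₂ h₂, _, _ =>
    simp only [eX, eY] at h hPs hQs
    have hx : x₁ - x₂ ≠ 0 := sub_ne_zero.mpr h
    obtain ⟨h3, hadd⟩ := add_someE h₁ h₂ (fun hh => h hh.1) (s := (y₁ - y₂) / (x₁ - x₂))
      (by field_simp) (by field_simp; linear_combination hPs - hQs)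
    rw [hadd]
    exact ⟨WeierstrassCurve.Affine.Point.some_ne_zero _, rfl, rfl⟩

/-- Doubling. -/
theorem doubleE [CharZero F] {P : EPt F} (hP : P ≠ 0) (h : eY P ≠ 0) :
    P + P ≠ 0 ∧ eX (P + P) = (3 * eX P ^ 2 / (2 * eY P)) ^ 2 - 2 * eX P ∧
      eY (P + P) = -(3 * eX P ^ 2 / (2 * eY P) * (eX (P + P) - eX P) + eY P) := by
  match P, hP with
  | .zero, hP => exact absurd rfl hP
  | .some x₁ y₁ h₁, _ =>
    simp only [eY] at h
    have hne : ¬(x₁ = x₁ ∧ y₁ = -y₁) := by
      rintro ⟨_, hh⟩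
      have : (2 : F) * y₁ = 0 := by linear_combination hh
      exact h (by simpa using this)
    obtain ⟨h3, hadd⟩ := add_someE h₁ h₁ hne (s := 3 * x₁ ^ 2 / (2 * y₁))
      (by ring) (by field_simp; ring)
    rw [hadd]
    refine ⟨WeierstrassCurve.Affine.Point.some_ne_zero _, ?_, rfl⟩
    simp only [eX, eY]; ring

/-- Subtraction of points with different `X`-coordinates. -/
theorem subE {P Q : EPt F} (hP : P ≠ 0) (hQ : Q ≠ 0) (h : eX P ≠ eX Q) :
    P - Q ≠ 0 ∧ eX (P - Q) = ((eY P + eY Q) / (eX P - eX Q)) ^ 2 - eX P - eX Q ∧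
      eY (P - Q) = -((eY P + eY Q) / (eX P - eX Q) * (eX (P - Q) - eX P) + eY P) := by
  have := addE hP (neg_ne_zeroE hQ) (by rwa [eX_neg])
  rw [eX_neg, eY_neg, sub_neg_eq_add, ← sub_eq_add_neg] at this
  exact this

/-- Intersection multiplicity with the origin of a point `P ≠ 0` of `E`. -/
noncomputable def DV.iE (D : DV k F) (P : EPt F) : ℤ := max 0 (-(D.v (eX P))) / 2

/-! ### Points of `B` -/

/-- Points of the curve `B : y² = x⁶ + 1`. -/
inductive BPt (F : Type) [Field F] : Type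
  | aff (x y : F) (h : y ^ 2 = x ^ 6 + 1)
  | inf (e : F) (h : e ^ 2 = 1)

namespace BPt

/-- The coordinate `x` (junk value `0` at infinity). -/
def x : BPt F → F
  | aff x _ _ => x
  | inf _ _ => 0

/-- The coordinate `y` (junk value `0` at infinity). -/
def y : BPt F → F
  | aff _ y _ => y
  | inf _ _ => 0

/-- The coordinate `1 / x` of the second chart (junk value `0` at `x = 0`). -/
noncomputable def xh : BPt F → F
  | aff x _ _ => x⁻¹
  | inf _ _ => 0

/-- The coordinate `y / x³` of the second chart (junk value `0` at `x = 0`). -/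
noncomputable def yh : BPt F → F
  | aff x y _ => y / x ^ 3
  | inf e _ => e

/-- `p` reduces to a point of the affine chart `x ≠ ∞`. -/
def IsFin (D : DV k F) : BPt F → Prop
  | aff x _ _ => D.ge 0 x
  | inf _ _ => False

/-- The involution `(x,y) ↦ (x,-y)`. -/
def iot : BPt F → BPt F
  | aff x y h => aff x (-y) (by rw [neg_sq, h])
  | inf e h => inf (-e) (by rw [neg_sq, h])

/-- The involution `(x,y) ↦ (-x,y)`. -/
def sig : BPt F → BPt F
  | aff x y h => aff (-x) y (by rw [h]; ring)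
  | inf e h => inf (-e) (by rw [neg_sq, h])

open Classical in
/-- The involution `(x,y) ↦ (1/x, y/x³)`. -/
noncomputable def swap : BPt F → BPt F
  | aff x y h => if hx : x = 0 then inf y (by rw [h, hx]; ring)
      else aff x⁻¹ (y / x ^ 3) (by field_simp; rw [h]; ring)
  | inf e h => aff 0 e (by rw [h]; ring)

/-- The involution `(x,y) ↦ (-x,-y)`. -/
def sig' (p : BPt F) : BPt F := p.iot.sig

/-- The double cover `(x,y) ↦ (x²,y)` of `E`. -/
def pi [CharZero F] : BPt F → EPt F
  | aff x y h => mkE (x ^ 2) y (by rw [h]; ring)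
  | inf _ _ => 0

/-- The double cover `(x,y) ↦ (1/x²,y/x³)` of `E`. -/
noncomputable def pi' [CharZero F] (p : BPt F) : EPt F := p.swap.pi

/-- The automorphism `α (x,y) = (ζ x, -y)` of order `6`. -/
def alp (z : F) (hz : z ^ 2 + z + 1 = 0) : BPt F → BPt F
  | aff x y h => aff (z * x) (-y) (by
      have h3 : z ^ 3 = 1 := by linear_combination (z - 1) * hz
      have h6 : z ^ 6 = 1 := by linear_combination (z ^ 3 + 1) * h3
      rw [neg_sq, h, mul_pow, h6, one_mul])
  | inf e h => inf (-e) (by rw [neg_sq, h])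

/-- Constant points. -/
def map (F : Type) [Field F] [Algebra k F] : BPt k → BPt F
  | aff x y h => aff (algebraMap k F x) (algebraMap k F y) (by
      rw [← map_pow, h, map_add, map_pow, map_one])
  | inf e h => inf (algebraMap k F e) (by rw [← map_pow, h, map_one])

end BPt

open Classical in
/-- Intersection multiplicity of two different points of `B`. -/
noncomputable def DV.iB (D : DV k F) (p q : BPt F) : ℤ :=
  if p.IsFin D ∧ q.IsFin D then D.dmin (p.x - q.x) (p.y - q.y)
  else if ¬ p.IsFin D ∧ ¬ q.IsFin D then D.dmin (p.xh - q.xh) (p.yh - q.yh)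
  else 0

/-- Intersection multiplicity of an affine point `p` of `B` with the divisor `∞₊ + ∞₋`. -/
noncomputable def DV.iInf (D : DV k F) (p : BPt F) : ℤ := max 0 (-(D.v p.x))

/-- Intersection multiplicity of a point `p` of `B` with `x p ≠ 0` with the divisor
`{x = 0} = (0,1) + (0,-1)`. -/
noncomputable def DV.iZero (D : DV k F) (p : BPt F) : ℤ := max 0 (D.v p.x)

end HB
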