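import Mathlib

/-!
# Project HB: smooth projective surfaces in the language of function fields

A projective surface over an algebraically closed field `k` is given here by its function field
`L` together with two elements `s`, `t` such that `L` is finite over the rational function field
`k(s,t)`; it is the normalisation of the projective plane in `L`, polarised by the pull-back of
`O(1)`.  By Noether normalisation every smooth projective surface with a (very) ample divisor is
of this form.  Points and prime divisors are local subrings of `L`.
-/

set_option autoImplicit false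

open IsLocalRing

namespace HB

universe u

/-- Order of vanishing of `g` in the fraction field `F` of a one-dimensional local subring `R`:
`length (R/a) - length (R/b)` if `g = a/b` (Fulton, Intersection Theory, 1.2). -/
noncomputable def ordS {F : Type u} [Field F] (R : Subring F) (g : F) : ℤ :=
  open Classical in
  if h : ∃ p : R × R, (p.1 : F) ≠ 0 ∧ (p.2 : F) ≠ 0 ∧ g = (p.1 : F) / (p.2 : F) then
    ((Ring.ord R h.choose.1).toNat : ℤ) - ((Ring.ord R h.choose.2).toNat : ℤ)
  else 0

/-- A normal projective surface with function field `L`, given as a finite cover of the plane. -/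
structure Surf (k L : Type u) [Field k] [Field L] [Algebra k L] where
  /-- first affine coordinate of the plane -/
  s : L
  /-- second affine coordinate of the plane -/
  t : L
  indep : AlgebraicIndependent k ![s, t]
  fin : FiniteDimensional (IntermediateField.adjoin k ({s, t} : Set L)) L

namespace Surf

variable {k L : Type u} [Field k] [Field L] [Algebra k L] (S : Surf k L)

/-- The space of linear forms `a + b s + c t`, i.e. of sections of the polarisation pulled back
from the plane. -/
def V : Submodule k L := Submodule.span k {1, S.s, S.t}

/-- The coordinate ring `k[V/l]` of the affine chart `l ≠ 0` of the plane. -/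
def base (l : L) : Subring L := (Algebra.adjoin k {x : L | ∃ m ∈ S.V, x = m / l}).toSubring

/-- The coordinate ring of the chart `l ≠ 0` of the surface: the integral closure in `L`. -/
def chart (l : L) : Subring L := (integralClosure (S.base l) L).toSubring

/-- The local rings of the closed points. -/
def IsPt (O : LocalSubring L) : Prop :=
  ∃ l ∈ S.V, l ≠ 0 ∧ ∃ (p : Ideal (S.chart l)) (_ : p.IsPrime),
    p.IsMaximal ∧ O = LocalSubring.ofPrime (S.chart l) p

/-- The local rings of the prime divisors. -/
def IsPD (O : LocalSubring L) : Prop :=
  ∃ l ∈ S.V, l ≠ 0 ∧ ∃ (p : Ideal (S.chart l)) (_ : p.IsPrime),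
    p.height = 1 ∧ O = LocalSubring.ofPrime (S.chart l) p

/-- Closed points. -/
def Pt : Type u := {O : LocalSubring L // S.IsPt O}

/-- Prime divisors (irreducible curves on the surface). -/
def PD : Type u := {O : LocalSubring L // S.IsPD O}

/-- The surface is smooth: the maximal ideal of every closed point has two generators. -/
def Smooth : Prop :=
  ∀ P : S.Pt, ∃ x y : P.1.toSubring, maximalIdeal P.1.toSubring = Ideal.span {x, y}

variable {S}

/-- The function field of the curve `C`. -/
abbrev PD.kap (C : S.PD) : Type u := ResidueField C.1.toSubring

/-- The closed point `P` lies on the curve `C`. -/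
def On (P : S.Pt) (C : S.PD) : Prop := P.1.toSubring ≤ C.1.toSubring

/-- The order of a rational function on the surface along the curve `C`. -/
noncomputable def PD.ord (C : S.PD) (f : L) : ℤ := ordS C.1.toSubring f

/-- The local ring of the curve `C` at the point `P`, a subring of the function field of `C`. -/
def PD.loc (C : S.PD) (P : S.Pt) : Subring C.kap :=
  (P.1.toSubring.comap C.1.toSubring.subtype).map (residue C.1.toSubring)

/-- The restriction to the curve `C` of a rational function which is regular on `C` generically
(`0` otherwise). -/
noncomputable def PD.res (C : S.PD) (f : L) : C.kap :=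
  open Classical in
  if h : f ∈ C.1.toSubring then residue C.1.toSubring ⟨f, h⟩ else 0

variable (S)

/-- Zero-cycles with rational coefficients. -/
noncomputable abbrev Z0 : Type u := S.Pt →₀ ℚ

/-- `z` is the divisor of the rational function `g` on the curve `C`. -/
def IsDivOn (C : S.PD) (g : C.kap) (z : S.Z0) : Prop :=
  (∀ P : S.Pt, On P C → z P = ordS (C.loc P) g) ∧ ∀ P : S.Pt, ¬ On P C → z P = 0

/-- Zero-cycles rationally equivalent to zero. -/
noncomputable def rat : Submodule ℚ S.Z0 :=
  Submodule.span ℚ {z | ∃ (C : S.PD) (g : C.kap), g ≠ 0 ∧ S.IsDivOn C g z}

/-- The Chow group of zero-cycles with rational coefficients. -/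
abbrev CH0 : Type u := S.Z0 ⧸ S.rat

/-- The degree of a zero-cycle. -/
noncomputable def deg0 : S.Z0 →ₗ[ℚ] ℚ := Finsupp.lsum ℚ (fun _ => LinearMap.id)

/-- Divisors. -/
noncomputable abbrev Div : Type u := S.PD →₀ ℤ

/-- The divisor of a rational function. -/
def IsDiv (f : L) (D : S.Div) : Prop := f ≠ 0 ∧ ∀ C : S.PD, D C = C.ord f

/-- Linear equivalence. -/
def LinEq (D D' : S.Div) : Prop := ∃ f : L, S.IsDiv f (D - D')

/-- `f` is a local equation of the divisor `D` at the point `P`. -/
def IsEq (D : S.Div) (P : S.Pt) (f : L) : Prop :=
  f ≠ 0 ∧ ∀ C : S.PD, On P C → C.ord f = D C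

/-- `z` is a zero-cycle on the curve `C` which represents the intersection `D . C`: a rational
function `r` moves `D` off `C`, and at every point `P` of `C` one takes the order of the
restriction to `C` of a local equation of `D - div r`. -/
def IsInt (D : S.Div) (C : S.PD) (z : S.Z0) : Prop :=
  ∃ r : L, r ≠ 0 ∧ C.ord r = D C ∧
    (∀ P : S.Pt, On P C → ∃ f : L, S.IsEq D P f ∧ z P = ordS (C.loc P) (C.res (f / r))) ∧
    ∀ P : S.Pt, ¬ On P C → z P = 0

open Classical in
/-- The intersection class `D . C` of a divisor `D` with a curve `C` in the Chow group. -/
noncomputable def inter (D : S.Div) (C : S.PD) : S.CH0 :=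
  if h : ∃ z, S.IsInt D C z then Submodule.Quotient.mk h.choose else 0

/-- The intersection product `D . D'` of two divisors in the Chow group of zero-cycles. -/
noncomputable def prod (D D' : S.Div) : S.CH0 :=
  D'.sum (fun C n => (n : ℚ) • S.inter D C)

/-- The degree of a class in the Chow group of zero-cycles (the degree of any representative). -/
noncomputable def deg (c : S.CH0) : ℚ := S.deg0 (Quotient.out c)

/-- `D` is the divisor of the section `l` of the polarisation: where the section `m` is a
generator, the order of `D` is the order of the rational function `l / m`. -/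
def IsSec (l : L) (D : S.Div) : Prop :=
  l ∈ S.V ∧ l ≠ 0 ∧
    ∀ (C : S.PD), ∀ m ∈ S.V, m ≠ 0 → S.chart m ≤ C.1.toSubring → D C = C.ord (l / m)

open Classical in
/-- A divisor in the class of the polarisation: the divisor of the section `1`. -/
noncomputable def hyp : S.Div := if h : ∃ D, S.IsSec 1 D then h.choose else 0

/-- The degree `D . H` of a divisor with respect to the polarisation `H`. -/
noncomputable def degH (D : S.Div) : ℚ := S.deg (S.prod S.hyp D)

end Surf

end HB
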